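import Pool.Agent.R730.Bz.MainA
import Pool.Agent.R730.Bz.FZero

set_option autoImplicit false

namespace Pool.Agent.Results.MP_7e9d3d_co.ClosedForm

open Pool.Agent.R730.Bz

/-- The number of tilings of the `(n, 2n - 3)`-benzel by right stones and bones, `n ≥ 5`. -/
theorem result : ∀ n : ℕ, 5 ≤ n →
    (T103 (n : ℤ) (2 * n - 3) : ℚ) = ((3 * n + 3) * (3 * n - 7).factorial) /
      ((n - 5).factorial * (2 * n - 1).factorial) := by
  intro n hn
  obtain ⟨m, rfl⟩ : ∃ m, n = m + 3 + 2 := ⟨n - 5, by omega⟩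
  have h1 : (T103 (((m + 3 + 2 : ℕ) : ℤ)) (2 * ((m + 3 + 2 : ℕ) : ℤ) - 3) : ℤ) = F 0 (m + 3) := by
    have := T103_in (m := m + 3) (by omega)
    rw [← this]
    congr 2 <;> push_cast <;> ring
  have h2 := F_zero (m + 3) (by omega)
  rw [← h1] at h2
  have h3 := Nat.choose_mul_factorial_mul_factorial (n := 3 * (m + 3)) (k := m + 3 - 3) (by omega)
  rw [show m + 3 - 3 = m by omega, show 3 * (m + 3) - m = 2 * (m + 3 + 2) - 1 by omega] at h3
  rw [show m + 3 - 3 = m by omega] at h2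
  rw [show m + 3 + 2 - 5 = m by omega, show 3 * (m + 3 + 2) - 7 = 3 * m + 8 by omega]
  have h4 : (3 * (m + 3)).factorial = (3 * m + 9) * (3 * m + 8).factorial := by
    rw [show 3 * (m + 3) = (3 * m + 8) + 1 by ring, Nat.factorial_succ]
  rw [h4] at h3
  have h2' : ((m : ℚ) + 3) * (T103 (((m + 3 + 2 : ℕ) : ℤ)) (2 * ((m + 3 + 2 : ℕ) : ℤ) - 3) : ℚ)
      = (m + 3 + 3) * ((3 * (m + 3)).choose m : ℚ) := by
    exact_mod_cast h2
  have h3' : ((3 * (m + 3)).choose m : ℚ) * (m.factorial : ℚ) * ((2 * (m + 3 + 2) - 1).factorial : ℚ)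
      = (3 * m + 9) * ((3 * m + 8).factorial : ℚ) := by
    exact_mod_cast h3
  have p1 : (m.factorial : ℚ) ≠ 0 := by exact_mod_cast Nat.factorial_ne_zero _
  have p2 : ((2 * (m + 3 + 2) - 1).factorial : ℚ) ≠ 0 := by exact_mod_cast Nat.factorial_ne_zero _
  have p3 : (m : ℚ) + 3 ≠ 0 := by positivity
  rw [eq_div_iff (mul_ne_zero p1 p2)]
  apply mul_left_cancel₀ p3
  push_cast at h2' ⊢
  linear_combination ((m.factorial : ℚ) * ((2 * (m + 3 + 2) - 1).factorial : ℚ)) * h2'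
    + ((m : ℚ) + 3 + 3) * h3'

end Pool.Agent.Results.MP_7e9d3d_co.ClosedForm
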